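import Mathlib
import Pool.Agent.R283.SmoothNormal

/-!
# `‖T‖² - T²` is strongly normal (MP_cd4dc1_an, Q1)

For a self-adjoint operator `T` on a smooth complex Banach space the operator `‖T‖² - T²` is the
square of a self-adjoint operator.

Outline.  Let `J` be the duality map.  For self-adjoint `R` the energy `‖exp(sR²)x‖²` has derivative
`2‖exp(sR²)Rx‖²`, so it equals `∑ (2s)ⁿ/n! ‖Rⁿx‖²`; for `s ≥ 0` this is convex in `x`, and its
subgradient at `x` shows that `J(x) ∘ exp(sR²)` is a subgradient of `‖·‖²/2` at `exp(sR²)x`, so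
that `exp(sR²)` is self-adjoint.  Hence `exp(b)` is self-adjoint for all `b` in the closed real
algebra generated by `T²`.  The square root of `1 - tT²/‖T‖²` (`0 ≤ t ≤ 1`) given by the binomial
series is a continuous path in this algebra starting at `1`, and a continuity argument shows that
all its members are self-adjoint.
-/

set_option autoImplicit false

namespace Pool.Agent.Results.MP_cd4dc1_an.NormSqSubSq

variable {X : Type*} [NormedAddCommGroup X] [NormedSpace ℂ X]

/-- A complex normed space is *smooth* if every vector `x` with `‖x‖ = 1` has exactly one functional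
`f` with `‖f‖ = 1` and `f x = 1`. -/
def IsSmoothSpace (X : Type*) [NormedAddCommGroup X] [NormedSpace ℂ X] : Prop :=
  ∀ x : X, ‖x‖ = 1 → ∃! f : X →L[ℂ] ℂ, ‖f‖ = 1 ∧ f x = 1

/-- `J` is the duality map: `‖J x‖ = ‖x‖` and `(J x)(x) = ‖x‖²` for all `x`.  On a smooth space there
is exactly one such `J`, see `existsUnique_dualityMap` below. -/
def IsDualityMap (J : X → (X →L[ℂ] ℂ)) : Prop :=
  ∀ x, ‖J x‖ = ‖x‖ ∧ J x x = ((‖x‖ ^ 2 : ℝ) : ℂ)

/-- `T` is self-adjoint: `T' ∘ J = J ∘ T`, that is, `J (T x) = (J x) ∘ T` for all `x`. -/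
def IsSelfAdj (J : X → (X →L[ℂ] ℂ)) (T : X →L[ℂ] X) : Prop :=
  ∀ x, J (T x) = (J x).comp T

/-- `T` is strongly normal: `T = S²` for some self-adjoint bounded operator `S`. -/
def IsStronglyNormal (J : X → (X →L[ℂ] ℂ)) (T : X →L[ℂ] X) : Prop :=
  ∃ S : X →L[ℂ] X, IsSelfAdj J S ∧ T = S * S

theorem existsUnique_dualityMap (hX : IsSmoothSpace X) :
    ∃! J : X → (X →L[ℂ] ℂ), IsDualityMap J :=
  Pool.Agent.R283.SmoothSA.existsUnique_dualityMap hX

/-- **Answer to Q1 (true).**  On a smooth complex Banach space, `‖T‖² - T²` is strongly normal for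
every self-adjoint operator `T`. -/
theorem result [CompleteSpace X] (hX : IsSmoothSpace X) (J : X → (X →L[ℂ] ℂ))
    (hJ : IsDualityMap J) (T : X →L[ℂ] X) (hT : IsSelfAdj J T) :
    IsStronglyNormal J ((‖T‖ ^ 2) • (1 : X →L[ℂ] X) - T * T) :=
  Pool.Agent.R283.SmoothSA.q1 (J := J) hX hJ hT

end Pool.Agent.Results.MP_cd4dc1_an.NormSqSubSq
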