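import Mathlib
import Pool.Agent.R283.SmoothNormal

/-!
# `T² - μ(T)²` is strongly normal (MP_cd4dc1_an, Q2)

For a self-adjoint operator `T` on a smooth complex Banach space with minimum modulus `μ(T)` the
operator `T² - μ(T)²` is the square of a self-adjoint operator.

Outline.  If `μ(T) = 0` this is `T²` itself.  If `μ = μ(T) > 0`, then the energy identity
`d/ds ‖exp(sT²)x‖² = 2‖T exp(sT²)x‖²` gives `‖exp(-T²)‖ ≤ exp(-μ²) < 1`, so `T²` is invertible by
the spectral mapping theorem; the inverse of `T` is self-adjoint of norm at most `1/μ`, and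
`T² - μ² = (μT)²(μ⁻² - T⁻²)`, where `μ⁻² - T⁻² = S²` for a self-adjoint `S` commuting with `T`
by the argument for Q1.
-/

set_option autoImplicit false

namespace Pool.Agent.Results.MP_cd4dc1_an.SqSubMinModulusSq

variable {X : Type*} [NormedAddCommGroup X] [NormedSpace ℂ X]

/-- A complex normed space is *smooth* if every vector `x` with `‖x‖ = 1` has exactly one functional
`f` with `‖f‖ = 1` and `f x = 1`. -/
def IsSmoothSpace (X : Type*) [NormedAddCommGroup X] [NormedSpace ℂ X] : Prop :=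
  ∀ x : X, ‖x‖ = 1 → ∃! f : X →L[ℂ] ℂ, ‖f‖ = 1 ∧ f x = 1

/-- `J` is the duality map: `‖J x‖ = ‖x‖` and `(J x)(x) = ‖x‖²` for all `x`.  On a smooth space there
is exactly one such `J`, see `existsUnique_dualityMap` below. -/
def IsDualityMap (J : X → (X →L[ℂ] ℂ)) : Prop :=
  ∀ x, ‖J x‖ = ‖x‖ ∧ J x x = ((‖x‖ ^ 2 : ℝ) : ℂ)

/-- `T` is self-adjoint: `T' ∘ J = J ∘ T`, that is, `J (T x) = (J x) ∘ T` for all `x`. -/
def IsSelfAdj (J : X → (X →L[ℂ] ℂ)) (T : X →L[ℂ] X) : Prop :=
  ∀ x, J (T x) = (J x).comp T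

/-- `T` is strongly normal: `T = S²` for some self-adjoint bounded operator `S`. -/
def IsStronglyNormal (J : X → (X →L[ℂ] ℂ)) (T : X →L[ℂ] X) : Prop :=
  ∃ S : X →L[ℂ] X, IsSelfAdj J S ∧ T = S * S

/-- The minimum modulus of a bounded operator: the infimum of `‖T x‖` over the unit sphere. -/
noncomputable def minModulus (T : X →L[ℂ] X) : ℝ := sInf ((fun x => ‖T x‖) '' Metric.sphere 0 1)

theorem existsUnique_dualityMap (hX : IsSmoothSpace X) :
    ∃! J : X → (X →L[ℂ] ℂ), IsDualityMap J :=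
  Pool.Agent.R283.SmoothSA.existsUnique_dualityMap hX

/-- **Answer to Q2 (true).**  On a smooth complex Banach space, `T² - μ(T)²` is strongly normal for
every self-adjoint operator `T`, where `μ(T)` is the minimum modulus of `T`. -/
theorem result [CompleteSpace X] (hX : IsSmoothSpace X) (J : X → (X →L[ℂ] ℂ))
    (hJ : IsDualityMap J) (T : X →L[ℂ] X) (hT : IsSelfAdj J T) :
    IsStronglyNormal J (T * T - (minModulus T ^ 2) • (1 : X →L[ℂ] X)) :=
  Pool.Agent.R283.SmoothSA.q2 (J := J) hX hJ hT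

end Pool.Agent.Results.MP_cd4dc1_an.SqSubMinModulusSq
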